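import Pool.Agent.Helper26.CC.Final

/-!
A lower bound for the spectral gap of every constituent of every primitive coherent configuration
in terms of its degree and `D_min`.
-/

namespace Pool.Agent.Results.MP_7beb49_co.EveryColour

open Pool.Agent.Helper26.CC

theorem result {V : Type*} [Fintype V] [DecidableEq V] {r : ℕ}
    (c : V → V → Fin r) (hc : IsPCC c) (hn : 3 ≤ Fintype.card V) (a : Fin r)
    (ha : IsEdgeColor c a) (w : V) :
    (deg c a w : ℝ) / 8 * ((deg c a w : ℝ) / (6 * dmin c + deg c a w)) ^ 2
      ≤ (deg c a w : ℝ) - xi (sym c a) := by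
  have := every_colour hc hn ha w
  linarith

end Pool.Agent.Results.MP_7beb49_co.EveryColour
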