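import Pool.Agent.Helper26.CC.Final

/-!
Q1 for primitive coherent configurations in which one constituent, or the typical constituent,
is not too small compared with `D_min`.
-/

namespace Pool.Agent.Results.MP_7beb49_co.LargeConstituent

open Pool.Agent.Helper26.CC

theorem result {V : Type*} [Fintype V] [DecidableEq V] {r : ℕ}
    (c : V → V → Fin r) (hc : IsPCC c) (hn : 3 ≤ Fintype.card V) {C : ℝ} (hC : 0 < C)
    (hcov : (∃ u v : V, u ≠ v ∧ C * (dnum c u v : ℝ) * (dmin c : ℝ)
        ≤ Fintype.card V * (deg c (c u v) u : ℝ)) ∨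
      (Fintype.card V : ℝ) ^ 2 ≤ 2 * ((Finset.univ.filter fun p : V × V => p.1 ≠ p.2 ∧
        C * (dmin c : ℝ) ^ 2 ≤ Fintype.card V * (deg c (c p.1 p.2) p.1 : ℝ)).card : ℝ)) :
    ∃ a : Fin r, IsEdgeColor c a ∧ ∀ w : V, val c a w ≤ deg c a w ∧
      (C / (12 + C)) ^ 2 / 512 * (deg c a w : ℝ) ≤ (deg c a w : ℝ) - xi (sym c a) := by
  obtain ⟨a, haE, ha⟩ := large_constituent hc hn hC hcov
  refine ⟨a, haE, fun w => ⟨?_, ?_⟩⟩
  · unfold val deg
    apply Finset.card_le_card
    intro v hv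
    simp only [Finset.mem_filter, Finset.mem_univ, true_and] at hv ⊢
    refine ⟨?_, Or.inl hv⟩
    rintro rfl
    exact haE w hv
  · have := ha w
    linarith

end Pool.Agent.Results.MP_7beb49_co.LargeConstituent
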