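import Pool.Agent.Helper26.CC.Trans

/-!
Q1 for translation schemes: every primitive coherent configuration on an abelian group `V` that is
invariant under the translations of `V` has an edge colour whose symmetrized constituent has
spectral gap at least `(1 - 6 * D_min / n)` times its degree.
-/

namespace Pool.Agent.Results.MP_7beb49_co.TranslationSchemes

open Pool.Agent.Helper26.CC

theorem result {V : Type*} [Fintype V] [DecidableEq V] [AddCommGroup V] {r : ℕ}
    (c : V → V → Fin r) (hc : IsPCC c) (hT : ∀ h u v : V, c (u + h) (v + h) = c u v)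
    (hn : 3 ≤ Fintype.card V) :
    ∃ a : Fin r, IsEdgeColor c a ∧ ∀ w : V, val c a w ≤ deg c a w ∧
      (1 - 6 * (dmin c : ℝ) / Fintype.card V) * (deg c a w : ℝ)
        ≤ (deg c a w : ℝ) - xi (sym c a) := by
  obtain ⟨a, haE, ha⟩ := translation_gap hc hT hn
  refine ⟨a, haE, fun w => ⟨?_, ?_⟩⟩
  · unfold val deg
    apply Finset.card_le_card
    intro v hv
    simp only [Finset.mem_filter, Finset.mem_univ, true_and] at hv ⊢
    refine ⟨?_, Or.inl hv⟩
    rintro rfl
    exact haE w hv
  · have := ha w
    have h2 : (1 - 6 * (dmin c : ℝ) / Fintype.card V) * (deg c a w : ℝ)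
        = (deg c a w : ℝ) - 6 * (dmin c : ℝ) / Fintype.card V * (deg c a w : ℝ) := by ring
    rw [h2]
    linarith

end Pool.Agent.Results.MP_7beb49_co.TranslationSchemes
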